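import Pool.Agent.Y450.Lens.Env

/-! A bulge between two coarsely Lipschitz arcs contains a large inscribed square. -/

set_option autoImplicit false

namespace Pool.Agent.Results.MP_5a3ebe_gt.BulgeBetweenArcs

/-- Let `C` be a set in the plane (for instance a Jordan curve) and let `α`, `β` be two arcs in `C`,
both leading from the line `Re z = a` to the line `Re z = b`, `a < b`; nothing is assumed about the
rest of `C`. Let `0 ≤ L < 1`, `ε ≥ 0`, `M > 0`. Suppose that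

* `|Im z - Im w| ≤ L |Re z - Re w| + ε` if `z` and `w` are both on `α` or both on `β`;
* `Im w ≤ Im z + L |Re z - Re w| + ε` if `z` is on `α` and `w` is on `β` (`β` is below `α`);
* some vertical line between the two lines contains a point of `α` and a point of `β` with distance
  at least `M + 2 ε` (the bulge);
* the distances of the two initial points and of the two final points of `α` and `β` are at most
  `(1 - L) ^ 2 M / 100`;
* `3000 ε (b - a) ≤ (1 - L) ^ 2 M ^ 2` and `3000 ε ≤ (1 - L) ^ 3 M`.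

Then `C` contains the vertices of a square of side at least `(1 - L) M / 64` with two adjacent
vertices on `α` and the two others on `β`. -/
theorem result (C : Set ℂ) (α β : ℝ → ℂ) (hα : ContinuousOn α (Set.Icc 0 1))
    (hβ : ContinuousOn β (Set.Icc 0 1)) (hαC : ∀ s ∈ Set.Icc (0:ℝ) 1, α s ∈ C)
    (hβC : ∀ s ∈ Set.Icc (0:ℝ) 1, β s ∈ C) (L ε M : ℝ) (hL0 : 0 ≤ L) (hL1 : L < 1) (hε : 0 ≤ ε)
    (hM : 0 < M) (ha : (α 0).re = (β 0).re) (hb : (α 1).re = (β 1).re)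
    (hab : (α 0).re < (α 1).re)
    (hαL : ∀ s ∈ Set.Icc (0:ℝ) 1, ∀ t ∈ Set.Icc (0:ℝ) 1,
      |(α s).im - (α t).im| ≤ L * |(α s).re - (α t).re| + ε)
    (hβL : ∀ s ∈ Set.Icc (0:ℝ) 1, ∀ t ∈ Set.Icc (0:ℝ) 1,
      |(β s).im - (β t).im| ≤ L * |(β s).re - (β t).re| + ε)
    (hαβ : ∀ s ∈ Set.Icc (0:ℝ) 1, ∀ t ∈ Set.Icc (0:ℝ) 1,
      (β t).im ≤ (α s).im + L * |(α s).re - (β t).re| + ε)
    (hbulge : ∃ s ∈ Set.Icc (0:ℝ) 1, ∃ t ∈ Set.Icc (0:ℝ) 1, (α s).re = (β t).re ∧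
      (α 0).re ≤ (α s).re ∧ (α s).re ≤ (α 1).re ∧ M + 2 * ε ≤ (α s).im - (β t).im)
    (hend0 : 100 * ((α 0).im - (β 0).im) ≤ (1 - L) ^ 2 * M)
    (hend1 : 100 * ((α 1).im - (β 1).im) ≤ (1 - L) ^ 2 * M)
    (hε1 : 3000 * ε * ((α 1).re - (α 0).re) ≤ (1 - L) ^ 2 * M ^ 2)
    (hε2 : 3000 * ε ≤ (1 - L) ^ 3 * M) :
    ∃ z w : ℂ, (1 - L) * M / 64 ≤ ‖w‖ ∧
      z ∈ α '' Set.Icc 0 1 ∧ z + w ∈ α '' Set.Icc 0 1 ∧
      z + w - Complex.I * w ∈ β '' Set.Icc 0 1 ∧ z - Complex.I * w ∈ β '' Set.Icc 0 1 ∧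
      z ∈ C ∧ z + w ∈ C ∧ z + w - Complex.I * w ∈ C ∧ z - Complex.I * w ∈ C := by
  obtain ⟨s, hs, t, ht, s', hs', t', ht', w, hw, e1, e2, e3⟩ :=
    Y450.Lens.coarse_lens hα hβ hL0 hL1 hε hM ha hb hab hαL hβL hαβ hend0 hend1 hbulge hε1 hε2
  refine ⟨α s, w, hw.trans ((le_abs_self _).trans (Complex.abs_re_le_norm w)), ⟨s, hs, rfl⟩,
    ⟨s', hs', e1⟩, ⟨t', ht', e3⟩, ⟨t, ht, e2⟩, hαC s hs, ?_, ?_, ?_⟩
  · rw [← e1]; exact hαC s' hs'
  · rw [← e3]; exact hβC t' ht'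
  · rw [← e2]; exact hβC t ht

end Pool.Agent.Results.MP_5a3ebe_gt.BulgeBetweenArcs
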