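import Pool.Agent.Y450.Horn.Wide2

/-! Inscribed squares in Jordan curves whose points are locally monotone, or junctions of two flat
arcs, or on small arcs of any shape between two Lipschitz arcs run in the same direction or in
opposite directions (wild tips of horns). -/

set_option autoImplicit false

namespace Pool.Agent.Results.MP_5a3ebe_gt.MonotoneHornsWild

/-- Stromquist's condition: near the parameter `τ` some linear function is strictly monotone along
the curve, that is, the curve is a graph there. -/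
def LocallyMonotone (c : ℝ → ℂ) (τ : ℝ) : Prop :=
  ∃ e : ℂ, ∃ ε > 0, StrictMonoOn (fun t => ((starRingEnd ℂ) e * c t).re) (Set.Ioo (τ - ε) (τ + ε))

/-- In coordinates with first axis in the direction `e` the curve, followed from the parameter `a`
to the parameter `b`, is the graph of a function with Lipschitz constant `L`, run through from left
to right. -/
def Arc (c : ℝ → ℂ) (L : ℝ) (e : ℂ) (a b : ℝ) : Prop := ∀ s t, a ≤ s → s < t → t ≤ b →
  0 < ((starRingEnd ℂ) e * (c t - c s)).re ∧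
  |((starRingEnd ℂ) e * (c t - c s)).im| ≤ L * ((starRingEnd ℂ) e * (c t - c s)).re

/-- The two arcs at the point `c τ` are, in suitable coordinates for each of them, graphs with a
Lipschitz constant `L < √2 - 1`; nothing is assumed about the angle between them. -/
def Junction (c : ℝ → ℂ) (τ : ℝ) : Prop :=
  ∃ L < Real.sqrt 2 - 1, ∃ e₁ e₂ : ℂ, ∃ ε > 0, Arc c L e₁ (τ - ε) τ ∧ Arc c L e₂ τ (τ + ε)

/-- The point `c τ` is on an arc `c [s₁, t₁]`, of any shape, with distances at most `h` from `c τ`,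
between two guards `c [s₀, s₁]` and `c [t₁, t₀]`, which are graphs of Lipschitz constant `K` in the
same coordinates, run through in the same direction, and whose ends `c s₀`, `c t₀` have distances
more than `22 (1 + K) ^ 2 h` from `c τ`. The parameter length of the whole arc is less than `δ`. -/
def Guarded (c : ℝ → ℂ) (δ τ : ℝ) : Prop :=
  ∃ (e : ℂ) (K h s₀ s₁ t₁ t₀ : ℝ), s₀ < s₁ ∧ s₁ ≤ τ ∧ τ ≤ t₁ ∧ t₁ < t₀ ∧ t₀ - s₀ < δ ∧
    Arc c K e s₀ s₁ ∧ Arc c K e t₁ t₀ ∧ (∀ r ∈ Set.Icc s₁ t₁, ‖c r - c τ‖ ≤ h) ∧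
    22 * (1 + K) ^ 2 * h < ‖c s₀ - c τ‖ ∧ 22 * (1 + K) ^ 2 * h < ‖c t₀ - c τ‖

/-- The point `c τ` is on the tip `c [s₁, t₁]`, of any shape, with distances at most `h` from `c τ`,
of a horn between two guards `c [s₀, s₁]` and `c [t₁, t₀]`, which are graphs of Lipschitz constant
`L < 1` in the same coordinates, run through in opposite directions (the first to the left, the
second to the right). Some vertical chord from the first to the second guard is longer than
`8000 h / (1 - L) ^ 4` or as long, and both guards go on five times as far to the right. The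
parameter length of the whole arc is less than `δ`. If the tip is just the point `c τ`, then
`h = 0`, and the horn is arbitrary. -/
def Horn (c : ℝ → ℂ) (δ τ : ℝ) : Prop :=
  ∃ (e : ℂ) (L h s₀ s s₁ t₁ t t₀ : ℝ), L < 1 ∧ s₀ < s ∧ s < s₁ ∧ s₁ ≤ τ ∧ τ ≤ t₁ ∧ t₁ < t ∧
    t < t₀ ∧ t₀ - s₀ < δ ∧ Arc c L (-e) s₀ s₁ ∧ Arc c L e t₁ t₀ ∧
    (∀ r ∈ Set.Icc s₁ t₁, ‖c r - c τ‖ ≤ h) ∧
    ((starRingEnd ℂ) e * (c s - c t)).re = 0 ∧ 8000 * h ≤ (1 - L) ^ 4 * ‖c s - c t‖ ∧
    5 * ((starRingEnd ℂ) e * (c s - c τ)).re ≤ ((starRingEnd ℂ) e * (c s₀ - c τ)).re ∧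
    5 * ((starRingEnd ℂ) e * (c s - c τ)).re ≤ ((starRingEnd ℂ) e * (c t₀ - c τ)).re

/-- Let `C` be a Jordan curve, parametrised by `c` of period `1`, and `0 < δ < 1 / 2`, such that each
point of `C` is locally monotone, or a junction, or guarded, or on the tip of a horn.
Then `C`, and every Jordan curve which is close enough to `C`, contains the vertices of a square. -/
theorem result (c : ℝ → ℂ) (hc : Continuous c) (hper : ∀ t, c (t + 1) = c t)
    (hinj : Set.InjOn c (Set.Ico 0 1)) (δ : ℝ) (hδ0 : 0 < δ) (hδ : δ < 1 / 2)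
    (hloc : ∀ τ : ℝ, LocallyMonotone c τ ∨ Junction c τ ∨ Guarded c δ τ ∨ Horn c δ τ) :
    ∃ ε > 0, ∀ c' : ℝ → ℂ, Continuous c' → (∀ t, c' (t + 1) = c' t) →
      Set.InjOn c' (Set.Ico 0 1) → (∀ t, ‖c' t - c t‖ ≤ ε) →
      ∃ z w : ℂ, w ≠ 0 ∧ z ∈ Set.range c' ∧ z + w ∈ Set.range c' ∧
        z + w + Complex.I * w ∈ Set.range c' ∧ z + Complex.I * w ∈ Set.range c' := by
  have hJ := Y450.Horn.jor_of hc hper hinj
  obtain ⟨ε, hε, h⟩ := TH587.sep_robust (δ := δ) hJ hδ0 hδ (by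
    intro τ
    rcases hloc τ with ⟨e, ε, hε, h⟩ | ⟨L, hL, e₁, e₂, ε, hε, h1, h2⟩ |
      ⟨e, K, h, s₀, s₁, t₁, t₀, h1, h2, h3, h4, h5, h6, h7, h8, h9, h10⟩ |
      ⟨e, L, h, s₀, s, s₁, t₁, t, t₀, h1, h2, h3, h4, h5, h6, h7, h8, h9, h10, h11, h12, h13, h14,
        h15⟩
    · exact TH587.sep_noTrap hJ hδ0 (TH587.noTrap_mono hJ (by linarith) ⟨hε, h⟩)
    · exact Y450.Horn.two hJ hδ0 hδ hL hε h1 h2
    · exact Y450.Horn.sep_guard hJ hδ h1 h2 h3 h4 h5 h6 h7 h8 h9 h10
    · exact Y450.Horn.sep_wide hJ hδ h1 h2 h3 h4 h5 h6 h7 h8 h9 h10 h11 h12 h13 h14 h15)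
  exact ⟨ε, hε, fun c' h1 h2 h3 h4 => h c' (Y450.Horn.jor_of h1 h2 h3) h4⟩

end Pool.Agent.Results.MP_5a3ebe_gt.MonotoneHornsWild
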