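import Pool.Agent.Y535.PEG.Tg5

/-! Inscribed squares in one of an odd number of Jordan curves all of whose arcs are locally
monotone, or symmetric, or similar or congruent in pairs. -/

set_option autoImplicit false

namespace Pool.Agent.Results.MP_5a3ebe_gt.OddFamilies

/-- Near the parameter `s` all chords of the curve lie in one open quarter plane: for a suitable `w`
the product of `w` with `c y - c x` has `|Im| < Re` for all `x < y` close to `s`. -/
def Tame (c : ℝ → ℂ) (s : ℝ) : Prop := ∃ ρ > 0, ∃ w : ℂ, ∀ x y : ℝ, |x - s| < ρ → |y - s| < ρ →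
  x < y → |(w * (c y - c x)).im| < (w * (c y - c x)).re

/-- The curve is locally monotone (in the sense of Stromquist) at the parameter `s`: near `s` all
chords of the curve lie in one open half plane. -/
def LocMono (c : ℝ → ℂ) (s : ℝ) : Prop := ∃ ρ > 0, ∃ w : ℂ, ∀ x y : ℝ, |x - s| < ρ → |y - s| < ρ →
  x < y → 0 < (w * (c y - c x)).re

/-- The `i`-th arc of a curve subdivided at the parameters `t 0 < t 1 < ...`. -/
def arc (c : ℝ → ℂ) (t : ℕ → ℝ) (i : ℕ) : Set ℂ := c '' Set.Icc (t i) (t (i + 1))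

/-- A similarity of the plane, of either orientation. -/
def Similarity (f : ℂ → ℂ) : Prop := ∃ u v : ℂ, u ≠ 0 ∧
  (f = (fun z => u * z + v) ∨ f = fun z => u * (starRingEnd ℂ) z + v)

/-- The arc over `[p, p']` of the curve `c`, prolonged at both ends, is mapped onto the arc over
`[q, q']` of the curve `c'`, prolonged at both ends, by a proper congruence of the plane that takes
`c p` to `c' q` and `c p'` to `c' q'`. -/
def Moved (c c' : ℝ → ℂ) (p p' q q' : ℝ) : Prop := ∃ a b a' b' : ℝ, a < p ∧ p' < b ∧ b < a + 1 ∧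
  a' < q ∧ q' < b' ∧ b' < a' + 1 ∧ ∃ u v : ℂ, ‖u‖ = 1 ∧
    (fun z => u * z + v) '' (c '' Set.Icc a b) = c' '' Set.Icc a' b' ∧ u * c p + v = c' q ∧
    u * c p' + v = c' q'

/-- The arc over `[p, p']` of the curve `c`, prolonged at both ends, is mapped onto the arc over
`[q, q']` of the curve `c'`, prolonged at both ends, by an opposite congruence of the plane that
takes `c p` to `c' q'` and `c p'` to `c' q`. -/
def Reflected (c c' : ℝ → ℂ) (p p' q q' : ℝ) : Prop := ∃ a b a' b' : ℝ, a < p ∧ p' < b ∧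
  b < a + 1 ∧ a' < q ∧ q' < b' ∧ b' < a' + 1 ∧ ∃ u v : ℂ, ‖u‖ = 1 ∧
    (fun z => u * (starRingEnd ℂ) z + v) '' (c '' Set.Icc a b) = c' '' Set.Icc a' b' ∧
    u * (starRingEnd ℂ) (c p) + v = c' q' ∧ u * (starRingEnd ℂ) (c p') + v = c' q

/-- Let `c 0, ..., c (N - 1)` be an odd number of Jordan curves (continuous, of period `1`, injective
on `[0, 1)`), the `k`-th one cut at the parameters `t k 0 < t k 1 < ... < t k (n k) = t k 0 + 1`,
`n k ≥ 2`. Let `σ` be an involution of the set of all the arcs `(k, i)` of all the curves. Suppose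
that each arc `(k, i)` is of one of the following kinds:
(1) its ends are tame and it is locally monotone at all its points;
(2) its ends and those of the arc `σ (k, i)` (of the same or of another curve) are tame and it is
mapped onto the arc `σ (k, i)` by a similarity which, in the case `σ (k, i) = (k, i)`, exchanges its
ends;
(3) `σ (k, i) ≠ (k, i)` and it is mapped onto the arc `σ (k, i)` by a proper congruence which keeps
the directions of the curves and maps also some prolongation of the arc `(k, i)` at both ends onto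
one of the arc `σ (k, i)`;
(4) it is mapped onto the arc `σ (k, i)` (possibly `σ (k, i) = (k, i)`) by an opposite congruence
which reverses the directions of the curves and maps also some prolongation of the arc `(k, i)` at
both ends onto one of the arc `σ (k, i)`.
Then at least one of the curves contains the four vertices of a square. -/
theorem result (N : ℕ) (hN : Odd N) (c : Fin N → ℝ → ℂ) (hc : ∀ k, Continuous (c k))
    (hper : ∀ k s, c k (s + 1) = c k s) (hinj : ∀ k, Set.InjOn (c k) (Set.Ico 0 1))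
    (n : Fin N → ℕ) (hn : ∀ k, 2 ≤ n k) (t : Fin N → ℕ → ℝ)
    (ht : ∀ k, ∀ i < n k, t k i < t k (i + 1)) (ht1 : ∀ k, t k (n k) = t k 0 + 1)
    (σ : Fin N × ℕ → Fin N × ℕ)
    (hσ : ∀ k, ∀ i < n k, (σ (k, i)).2 < n (σ (k, i)).1 ∧ σ (σ (k, i)) = (k, i))
    (H : ∀ k, ∀ i < n k,
      (Tame (c k) (t k i) ∧ Tame (c k) (t k (i + 1)) ∧
        ∀ s ∈ Set.Icc (t k i) (t k (i + 1)), LocMono (c k) s) ∨
      (Tame (c k) (t k i) ∧ Tame (c k) (t k (i + 1)) ∧
        Tame (c (σ (k, i)).1) (t (σ (k, i)).1 (σ (k, i)).2) ∧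
        Tame (c (σ (k, i)).1) (t (σ (k, i)).1 ((σ (k, i)).2 + 1)) ∧
        ∃ f, Similarity f ∧
          f '' arc (c k) (t k) i = arc (c (σ (k, i)).1) (t (σ (k, i)).1) (σ (k, i)).2 ∧
          (σ (k, i) = (k, i) → f (c k (t k i)) = c k (t k (i + 1)))) ∨
      (σ (k, i) ≠ (k, i) ∧ Moved (c k) (c (σ (k, i)).1) (t k i) (t k (i + 1))
        (t (σ (k, i)).1 (σ (k, i)).2) (t (σ (k, i)).1 ((σ (k, i)).2 + 1))) ∨
      Reflected (c k) (c (σ (k, i)).1) (t k i) (t k (i + 1))
        (t (σ (k, i)).1 (σ (k, i)).2) (t (σ (k, i)).1 ((σ (k, i)).2 + 1))) :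
    ∃ k, ∃ z w : ℂ, w ≠ 0 ∧ z ∈ Set.range (c k) ∧ z + w ∈ Set.range (c k) ∧
      z + w + Complex.I * w ∈ Set.range (c k) ∧ z + Complex.I * w ∈ Set.range (c k) := by
  by_contra hno
  have L : ∀ k, Pool.Agent.H763R2.An.Loop (c k) := fun k => ⟨hc k, hper k⟩
  have J : ∀ k, Pool.Agent.H763R2.An.Inj (c k) := by
    intro k x y hxy hy he
    have e1 : c k (Int.fract x) = c k x := by
      have := (L k).per_int (Int.fract x) ⌊x⌋
      rw [Int.fract_add_floor] at this
      exact this.symm
    have e2 : c k (Int.fract y) = c k y := by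
      have := (L k).per_int (Int.fract y) ⌊y⌋
      rw [Int.fract_add_floor] at this
      exact this.symm
    have e3 := hinj k ⟨Int.fract_nonneg x, Int.fract_lt_one x⟩
      ⟨Int.fract_nonneg y, Int.fract_lt_one y⟩ (by rw [e1, e2, he])
    obtain ⟨m, hm⟩ := Int.fract_eq_fract.1 e3
    have h1 : (m : ℝ) < 0 := by linarith
    have h2 : (-1 : ℝ) < m := by linarith
    have h3 : m < 0 := by exact_mod_cast h1
    have h4 : -1 < m := by exact_mod_cast h2
    omega
  exact Pool.Agent.Y535.PEG.grand_false hN L J (fun k h => hno ⟨k, h⟩) hn ht ht1 hσ H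

end Pool.Agent.Results.MP_5a3ebe_gt.OddFamilies
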