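import Pool.Agent.Y765.Sq.Tri

/-! Jordan curves without inscribed squares: for each of four kinds, a connected family of inscribed
isosceles right triangles joining the short to the long chords, and tiny triangles whose marked
acute vertex lies between the two other vertices. -/

set_option autoImplicit false

namespace Pool.Agent.Results.MP_5a3ebe_gt.TriangleFamilies

open Classical in
/-- The signed distance of `z` to the closed curve `c` (of period `1`): the distance of `z` to the
curve if the curve winds an odd number `n` of times around `z` (there is a continuous logarithm `k`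
of `c - z` with `k 1 - k 0 = 2 π n i`), and minus the distance otherwise. -/
noncomputable def sdist (c : ℝ → ℂ) (z : ℂ) : ℝ :=
  if ∃ n : ℤ, (∃ k : ℝ → ℂ, Continuous k ∧ (∀ t, Complex.exp (k t) = c t - z) ∧
      k 1 - k 0 = n * (2 * Real.pi * Complex.I)) ∧ Odd n
  then Metric.infDist z (Set.range c) else -Metric.infDist z (Set.range c)

/-- The curve `c` contains the four vertices of a square. -/
def HasSquare (c : ℝ → ℂ) : Prop :=
  ∃ z w : ℂ, w ≠ 0 ∧ z ∈ Set.range c ∧ z + w ∈ Set.range c ∧
    z + w + Complex.I * w ∈ Set.range c ∧ z + Complex.I * w ∈ Set.range c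

/-- For the chord from `A = c x` to `B = c y` let `D = A + i(B - A)` and `E = B + i(B - A)` be the
other two vertices of the square on its left. The pair of the signed distances of `D` and `E` to the
curve is a positive multiple of `(cos α, sin α)`. -/
def Dir (c : ℝ → ℂ) (α x y : ℝ) : Prop :=
  ∃ t : ℝ, 0 < t ∧ sdist c (c x + Complex.I * (c y - c x)) = t * Real.cos α ∧
    sdist c (c y + Complex.I * (c y - c x)) = t * Real.sin α

/-- The points `P = c x`, `Q = c y`, `V = c u` of the curve satisfy `V = P + κ (Q - P)` (for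
`κ = i` or `κ = -i` and `P ≠ Q` they are the vertices of an isosceles right triangle with right
angle at `P`), and the fourth vertex `Q + κ (Q - P)` of the square `P, Q, Q + κ (Q - P), V` is
strictly inside the curve if `σ = 1` and strictly outside the curve if `σ = -1`. -/
def Tri (c : ℝ → ℂ) (κ : ℂ) (σ x y u : ℝ) : Prop :=
  c u = c x + κ * (c y - c x) ∧ 0 < σ * sdist c (c y + κ * (c y - c x))

/-- Let `c` (continuous, of period `1`, injective on `[0, 1)`) parametrise a Jordan curve `C`
without inscribed squares. A chord from `c x` to `c (x + s)`, `0 < s < 1`, is recorded as the point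
`(x mod 1, s)` of an annulus.

1. For every direction `α` and every `δ < 1/2` there is a connected set of chords with direction `α`
   and with `δ ≤ s ≤ 1 - δ` that contains a chord with `s = δ` and one with `s = 1 - δ`.
2. For each of the four kinds of triangles (`κ = ± i`, `σ = ± 1`) and every `δ < 1/2` there is a
   connected set of chords `(P, Q)` with `δ ≤ s ≤ 1 - δ`, containing one with `s = δ` and one with
   `s = 1 - δ`, that all carry an inscribed triangle `P, Q, V` of this kind, with `V` always on the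
   arc from `P` to `Q` or always on the arc from `Q` to `P`.
3. For each of the four kinds there are arbitrarily small inscribed triangles `P, Q, V` of this kind
   whose vertex `V` is between `P` and `Q` on the small arc of `C` through `P, Q, V`: for all
   `ε > 0` there are `t1 < t2 < t3 < t1 + ε` with `V = c t2` and `{P, Q} = {c t1, c t3}`. In other
   words: a Jordan curve that for one of the four kinds has no such triangle on its arcs of
   parameter length less than some `ε > 0` contains the four vertices of a square. -/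
theorem result (c : ℝ → ℂ) (hc : Continuous c) (hper : ∀ t, c (t + 1) = c t)
    (hinj : Set.InjOn c (Set.Ico 0 1)) (hno : ¬ HasSquare c) :
    (∀ α δ : ℝ, 0 < δ → δ < 1 / 2 → ∃ T : Set (AddCircle (1 : ℝ) × ℝ), IsConnected T ∧
      (∃ p ∈ T, p.2 = δ) ∧ (∃ p ∈ T, p.2 = 1 - δ) ∧ (∀ p ∈ T, δ ≤ p.2 ∧ p.2 ≤ 1 - δ) ∧
      ∀ p ∈ T, ∀ x : ℝ, (x : AddCircle (1 : ℝ)) = p.1 → Dir c α x (x + p.2)) ∧
    (∀ κ : ℂ, κ = Complex.I ∨ κ = -Complex.I → ∀ σ : ℝ, σ = 1 ∨ σ = -1 →
      (∀ δ : ℝ, 0 < δ → δ < 1 / 2 → ∃ T : Set (AddCircle (1 : ℝ) × ℝ), IsConnected T ∧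
        (∃ p ∈ T, p.2 = δ) ∧ (∃ p ∈ T, p.2 = 1 - δ) ∧ (∀ p ∈ T, δ ≤ p.2 ∧ p.2 ≤ 1 - δ) ∧
        ((∀ p ∈ T, ∀ x : ℝ, (x : AddCircle (1 : ℝ)) = p.1 →
            ∃ u, x < u ∧ u < x + p.2 ∧ Tri c κ σ x (x + p.2) u) ∨
          (∀ p ∈ T, ∀ x : ℝ, (x : AddCircle (1 : ℝ)) = p.1 →
            ∃ u, x + p.2 < u ∧ u < x + 1 ∧ Tri c κ σ x (x + p.2) u))) ∧
      ∀ ε : ℝ, 0 < ε → ∃ t1 t2 t3 : ℝ, t1 < t2 ∧ t2 < t3 ∧ t3 < t1 + ε ∧
        (Tri c κ σ t1 t3 t2 ∨ Tri c κ σ t3 t1 t2)) := by
  have L : H763R2.An.Loop c := ⟨hc, hper⟩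
  have J : H763R2.An.Inj c := H765R3.Peg.inj_of L hinj
  refine ⟨fun α δ hδ hδ2 => ?_, fun κ hκ σ hσ => ⟨fun δ hδ hδ2 => ?_, fun ε hε => ?_⟩⟩
  · obtain ⟨T, hT, hZ, h1, h2⟩ := Y765.Sq.conn_fam L J hno α hδ hδ2
    refine ⟨T, hT, h1, h2, fun p hp => ⟨(hZ hp).1, (hZ hp).2.1⟩, fun p hp x hx => ?_⟩
    obtain ⟨t, ht, e1, e2⟩ := (hZ hp).2.2 x hx
    have d1 : c x + Complex.I * (c (x + p.2) - c x) = H763R2.An.DD c x (x + p.2) := by
      unfold H763R2.An.DD H763R2.Sq.Dv; ring
    have d2 : c (x + p.2) + Complex.I * (c (x + p.2) - c x) = H763R2.An.CC c x (x + p.2) := by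
      unfold H763R2.An.CC H763R2.Sq.Cv; ring
    refine ⟨t, ht, ?_, ?_⟩
    · rw [d1]; exact e1
    · rw [d2]; exact e2
  · exact Y765.Sq.tri_fam L J hno hκ hσ hδ hδ2
  · exact Y765.Sq.tiny L J hno hκ hσ hε

end Pool.Agent.Results.MP_5a3ebe_gt.TriangleFamilies
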